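import Pool.Agent.H19.BFL.Stmts2

/-!
# Row MKO: Markov inequality
-/

set_option autoImplicit false

namespace Pool.Agent.H40.BFL

open Finset Polynomial

/-- The derivative on the unit interval is bounded by the values. -/
theorem unit_markov (D : ℕ) : ∃ C : ℝ, 1 ≤ C ∧ ∀ (q : Polynomial ℝ) (S : ℝ), q.natDegree ≤ D →
    (∀ t ∈ Set.Icc (0 : ℝ) 1, |q.eval t| ≤ S) →
    ∀ t ∈ Set.Icc (0 : ℝ) 1, |q.derivative.eval t| ≤ C * S := by
  classical
  set v : ℕ → ℝ := fun i => (i : ℝ) / (D + 1) with hv
  have hD : (0 : ℝ) < D + 1 := by positivity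
  have hinj : Set.InjOn v (range (D + 1) : Finset ℕ) := by
    intro i _ k _ h
    have h1 : (i : ℝ) / (D + 1) = (k : ℝ) / (D + 1) := h
    field_simp at h1
    exact_mod_cast h1
  have hM : ∀ i, ∃ M : ℝ, 0 ≤ M ∧ ∀ t ∈ Set.Icc (0 : ℝ) 1,
      |((Lagrange.basis (range (D + 1)) v i).derivative).eval t| ≤ M := by
    intro i
    obtain ⟨M, hM⟩ := (isCompact_Icc (a := (0 : ℝ)) (b := 1)).exists_bound_of_continuousOn
      (((Lagrange.basis (range (D + 1)) v i).derivative).continuous.continuousOn)
    refine ⟨M, le_trans (norm_nonneg _) (hM 0 (by simp)), fun t ht => ?_⟩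
    exact hM t ht
  choose M hM0 hM1 using hM
  refine ⟨1 + ∑ i ∈ range (D + 1), M i, ?_, ?_⟩
  · have := Finset.sum_nonneg (s := range (D + 1)) fun i _ => hM0 i
    linarith
  intro q S hq hS t ht
  have hS0 : 0 ≤ S := le_trans (abs_nonneg _) (hS 0 (by simp))
  have h1 : q = Lagrange.interpolate (range (D + 1)) v fun i => q.eval (v i) := by
    refine Lagrange.eq_interpolate hinj ?_
    rw [card_range]
    refine lt_of_le_of_lt (Polynomial.degree_le_natDegree) ?_
    exact_mod_cast Nat.lt_succ_of_le hq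
  have h2 : q.derivative.eval t = ∑ i ∈ range (D + 1),
      q.eval (v i) * ((Lagrange.basis (range (D + 1)) v i).derivative).eval t := by
    conv_lhs => rw [h1]
    rw [Lagrange.interpolate_apply, Polynomial.derivative_sum, Polynomial.eval_finsetSum]
    refine Finset.sum_congr rfl fun i _ => ?_
    rw [Polynomial.derivative_C_mul, Polynomial.eval_mul, Polynomial.eval_C]
  rw [h2]
  refine le_trans (Finset.abs_sum_le_sum_abs _ _) ?_
  have h3 : ∑ i ∈ range (D + 1),
      |q.eval (v i) * ((Lagrange.basis (range (D + 1)) v i).derivative).eval t| ≤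
      ∑ i ∈ range (D + 1), M i * S := by
    refine Finset.sum_le_sum fun i hi => ?_
    rw [abs_mul, mul_comm]
    refine mul_le_mul (hM1 i t ht) (hS _ ?_) (abs_nonneg _) (hM0 i)
    have hi' : (i : ℝ) ≤ D := by
      have := Finset.mem_range.1 hi
      exact_mod_cast Nat.le_of_lt_succ this
    refine ⟨by positivity, ?_⟩
    show (i : ℝ) / (D + 1) ≤ 1
    rw [div_le_one hD]
    linarith
  refine h3.trans ?_
  rw [← Finset.sum_mul]
  nlinarith

theorem mko_thm : Pool.BFL.MKOStmt := by
  intro D
  obtain ⟨C, hC, h⟩ := unit_markov D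
  refine ⟨C, hC, ?_⟩
  intro q a r S hq hr hS t ht
  set p : Polynomial ℝ := q.comp (Polynomial.C a + Polynomial.C r * Polynomial.X) with hp
  have hpd : p.natDegree ≤ D := by
    refine (Polynomial.natDegree_comp_le).trans ?_
    have h1 : (Polynomial.C a + Polynomial.C r * Polynomial.X : Polynomial ℝ).natDegree ≤ 1 := by
      refine (Polynomial.natDegree_add_le _ _).trans ?_
      rw [Polynomial.natDegree_C]
      refine max_le (Nat.zero_le _) ?_
      refine (Polynomial.natDegree_C_mul_le r _).trans ?_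
      exact Polynomial.natDegree_X_le
    calc q.natDegree * _ ≤ q.natDegree * 1 := Nat.mul_le_mul_left _ h1
      _ ≤ D := by rw [mul_one]; exact hq
  have hpe : ∀ u, p.eval u = q.eval (a + r * u) := by
    intro u
    rw [hp, Polynomial.eval_comp]
    simp
  have hpe' : ∀ u, p.derivative.eval u = r * q.derivative.eval (a + r * u) := by
    intro u
    rw [hp, Polynomial.derivative_comp, Polynomial.eval_mul, Polynomial.eval_comp]
    simp
  have h1 := h p S hpd (by
    intro u hu
    rw [hpe]
    refine hS _ ⟨?_, ?_⟩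
    · nlinarith [hu.1]
    · nlinarith [hu.2]) ((t - a) / r) ⟨div_nonneg (by linarith [ht.1]) hr.le, by
      rw [div_le_one hr]; linarith [ht.2]⟩
  rw [hpe'] at h1
  have h2 : a + r * ((t - a) / r) = t := by
    field_simp
    ring
  rw [h2, abs_mul, abs_of_pos hr] at h1
  rw [le_div_iff₀ hr]
  linarith

end Pool.Agent.H40.BFL
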