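import Pool.Agent.H19.BFL.Stmts3
import Pool.Agent.H39.BFL.Prob
import Pool.Agent.H80.BFL.REM
import Pool.Agent.H80.BFL.TRA
import Pool.Agent.H40.BFL.MKO

/-!
# Row VST: the tensors of two levels
-/

set_option autoImplicit false

namespace Pool.Agent.H40.BFL

open Finset Real
open Pool.Agent.H49.Ent Pool.Agent.H32.Dense Pool.STK Pool.KS3 Pool.BFL
open Pool.Agent.H39.BFL
open Pool.Agent.H36.KBX (bx mem_bx support_bx)

/-- The time inside a window is full given the line and the window. -/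
theorem window_time {Ω Λ : Type} [Fintype Ω] {q : Ω → ℝ} (hq : IsLaw q) (T : Ω → ℕ) (l : Ω → Λ)
    (J v : ℕ) (hv : v ≤ J) (hT : ∀ ω, T ω < 2 ^ J) (x : ℝ) (h : J * Real.log 2 - x ≤ CH q T l) :
    ((J : ℝ) - v) * Real.log 2 - x ≤
      CH q (fun ω => T ω % 2 ^ (J - v)) (fun ω => (l ω, T ω / 2 ^ (J - v))) := by
  have hq0 := hq.nonneg
  have h1 : H q (fun ω => (T ω, l ω)) ≤
      H q (fun ω => (T ω % 2 ^ (J - v), (l ω, T ω / 2 ^ (J - v)))) := by
    refine H_mono hq0 fun ω ω' _ _ h => ?_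
    simp only [Prod.mk.injEq] at h ⊢
    obtain ⟨h1, h2, h3⟩ := h
    refine ⟨?_, h2⟩
    rw [← Nat.div_add_mod (T ω) (2 ^ (J - v)), ← Nat.div_add_mod (T ω') (2 ^ (J - v)), h1, h3]
  have h2 : H q (fun ω => (l ω, T ω / 2 ^ (J - v))) ≤ H q l + H q (fun ω => T ω / 2 ^ (J - v)) :=
    subadd hq0 hq.sum_one fun _ _ _ _ h => h
  have h3 : H q (fun ω => T ω / 2 ^ (J - v)) ≤ v * Real.log 2 := by
    have h4 := H_le_log_card hq0 hq.sum_one (fun ω => T ω / 2 ^ (J - v)) (range (2 ^ v))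
      fun ω _ => by
        rw [mem_range]
        refine Nat.div_lt_of_lt_mul ?_
        rw [← pow_add, Nat.sub_add_cancel hv]
        exact hT ω
    rw [card_range, Nat.cast_pow, Real.log_pow, Nat.cast_ofNat] at h4
    exact h4
  unfold CH at h ⊢
  nlinarith only [h, h1, h2, h3]

/-- The axioms of a system are monotone in the error. -/
theorem ok_mono {n : ℕ} {D : Dat n} {K J r w₀ z M : ℕ} {κ κ' : ℝ} {q : D.Ω → ℝ}
    (h : D.Ok K J r w₀ z M κ q) (hκ : κ ≤ κ') : D.Ok K J r w₀ z M κ' q := by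
  have hz : κ * z ≤ κ' * z := mul_le_mul_of_nonneg_right hκ (Nat.cast_nonneg z)
  have he : Real.exp (κ * z) ≤ Real.exp (κ' * z) := Real.exp_le_exp.2 hz
  refine ⟨h.isLaw, h.r_le, h.top, h.T_lt, h.E_le, h.A_i₀, h.E_i₀, ?_, h.pt_T, h.pt_Y, h.c_pt,
    h.c_wn, h.c_c, h.c_T, ?_, h.F_deg, ?_, ?_, h.g_mono,
    fun k hk => (h.g_ge k hk).trans (by linarith only [hz]), ?_⟩
  · linarith only [hz, h, h.time]
  · intro k hk ω hω i
    exact (h.y₀_near k hk ω hω i).trans (div_le_div_of_nonneg_right he (by positivity))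
  · intro k hk ω hω
    exact (h.F_hgt k hk ω hω).trans (div_le_div_of_nonneg_right he (by positivity))
  · intro k hk ω hω b hb i
    exact (h.F_grad k hk ω hω b hb i).trans he
  · obtain ⟨e, he0, he1, he2⟩ := h.nc
    refine ⟨e, he0, he1.trans hκ, fun ω hω u hu => ?_⟩
    refine (Pb_mono h.isLaw.nonneg fun ω' _ h' => ⟨h'.1, h'.2.trans ?_⟩).trans (he2 ω hω u hu)
    exact Real.exp_le_exp.2 (by linarith only [hz])

/-- Remez and Markov inequalities for the jets along the lines. -/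
theorem rem_line (hLJT : LJTStmt) (n K i : ℕ) : ∃ C : ℝ, 1 ≤ C ∧
    ∀ (D : Dat n) (J v : ℕ) (q : D.Ω → ℝ) (F : D.Λ × ℕ → Pl n) (Gd : D.Ω → Prop)
      (S₀ θ η : ℝ), IsLaw q → v ≤ J → (∀ ω, D.T ω < 2 ^ J) → (∀ x, (F x).totalDegree ≤ K) →
      0 ≤ θ → 0 < η → η ≤ 1 → J * Real.log 2 - θ ≤ CH q D.T D.ln →
      Pb q (fun ω => ¬ Gd ω) ≤ η / 4 → 0 < S₀ → C * (θ + 1) / η ≤ ((J : ℝ) - v) * Real.log 2 →
      (∀ ω, Gd ω → CB (jt i (F (D.wn J v ω)) (D.Y J ω)) S₀) →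
      Pb q (fun ω => ¬ CB (dE (D.E (D.ln ω)) (jt (i + 1) (F (D.wn J v ω)) (D.Y J ω)))
        (C * Real.exp (C * (θ + 1) / η) * S₀ * 2 ^ v)) ≤ (bx n (i + 1)).card * η := by
  classical
  obtain ⟨C₁, hC₁, hrem⟩ := Pool.BFL.Rem.rem_thm K
  obtain ⟨C₂, hC₂, hmk⟩ := mko_thm K
  refine ⟨max C₁ C₂, hC₁.trans (le_max_left _ _), ?_⟩
  obtain ⟨C, hC⟩ : ∃ C, C = max C₁ C₂ := ⟨_, rfl⟩
  rw [← hC]
  have hC1 : C₁ ≤ C := by rw [hC]; exact le_max_left _ _
  have hC2 : C₂ ≤ C := by rw [hC]; exact le_max_right _ _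
  intro D J v q F Gd S₀ θ η hq hv hT hF hθ hη hη1 hCH hG hS₀ hN hGd
  have hv0 : (0 : ℝ) < 2 ^ v := by positivity
  have hJv0 : (0 : ℝ) < 2 ^ (J - v) := by positivity
  have hJJ : (2 : ℝ) ^ J = 2 ^ (J - v) * 2 ^ v := by rw [← pow_add, Nat.sub_add_cancel hv]
  -- the polynomials in the time
  have hex : ∀ (m : Fin n →₀ ℕ) (x : D.Λ × ℕ), ∃ p : Polynomial ℝ, p.natDegree ≤ K ∧
      (∀ t, p.eval t = (jt i (F x) (fun l => (D.A x.1 l + (x.2 : ℝ) / 2 ^ v * D.E x.1 l) +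
        t * D.E x.1 l)).coeff m) ∧
      ∀ t, p.derivative.eval t = (dE (D.E x.1) (jt (i + 1) (F x)
        (fun l => (D.A x.1 l + (x.2 : ℝ) / 2 ^ v * D.E x.1 l) + t * D.E x.1 l))).coeff m :=
    fun m x => hLJT n K i (F x) _ (D.E x.1) m (hF x)
  choose P hP1 hP2 hP3 using hex
  have hY : ∀ ω, (fun l => (D.A (D.wn J v ω).1 l + ((D.wn J v ω).2 : ℝ) / 2 ^ v *
      D.E (D.wn J v ω).1 l) + ((D.T ω % 2 ^ (J - v) : ℕ) : ℝ) / ((2 ^ (J - v) : ℕ) : ℝ) / 2 ^ v *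
        D.E (D.wn J v ω).1 l) = D.Y J ω := by
    intro ω
    funext l
    show (D.A (D.ln ω) l + ((D.T ω / 2 ^ (J - v) : ℕ) : ℝ) / 2 ^ v * D.E (D.ln ω) l) +
      ((D.T ω % 2 ^ (J - v) : ℕ) : ℝ) / ((2 ^ (J - v) : ℕ) : ℝ) / 2 ^ v * D.E (D.ln ω) l =
      D.A (D.ln ω) l + (D.T ω : ℝ) / 2 ^ J * D.E (D.ln ω) l
    have h1 : (D.T ω : ℝ) = 2 ^ (J - v) * ((D.T ω / 2 ^ (J - v) : ℕ) : ℝ) +
        ((D.T ω % 2 ^ (J - v) : ℕ) : ℝ) := by
      have := Nat.div_add_mod (D.T ω) (2 ^ (J - v))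
      exact_mod_cast this.symm
    rw [h1, hJJ]
    push_cast
    field_simp
    ring
  -- Remez
  have h1 : ∀ m : {m // m ∈ bx n (i + 1)},
      Pb q (fun ω => ¬ ∀ t ∈ Set.Icc (0 : ℝ) 1,
        |((P m.1 (D.wn J v ω)).comp (Polynomial.C (1 / 2 ^ v) * Polynomial.X)).eval t| ≤
          Real.exp (C₁ * (θ + 1) / η) * S₀) ≤ η := by
    intro m
    refine hrem D.Ω (D.Λ × ℕ) q (2 ^ (J - v)) (fun ω => D.T ω % 2 ^ (J - v)) (D.wn J v)
      (fun x => (P m.1 x).comp (Polynomial.C (1 / 2 ^ v) * Polynomial.X)) Gd (fun _ => S₀) θ η hq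
      (fun ω => Nat.mod_lt _ (by positivity)) (fun x => ?_) hθ hη hη1 ?_ hG (fun _ => hS₀) ?_ ?_
    · refine (Polynomial.natDegree_comp_le).trans ?_
      refine (Nat.mul_le_mul (hP1 m.1 x) ((Polynomial.natDegree_C_mul_le _ _).trans
        Polynomial.natDegree_X_le)).trans (le_of_eq (mul_one K))
    · rw [Nat.cast_pow, Real.log_pow, Nat.cast_ofNat, Nat.cast_sub hv]
      exact window_time hq D.T D.ln J v hv hT θ hCH
    · rw [Nat.cast_pow, Real.log_pow, Nat.cast_ofNat, Nat.cast_sub hv]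
      refine le_trans ?_ hN
      refine div_le_div_of_nonneg_right ?_ hη.le
      exact mul_le_mul_of_nonneg_right hC1 (by linarith only [hθ])
    · intro ω hω
      have h2 := hGd ω hω m.1
      rw [Polynomial.eval_comp]
      simp only [Polynomial.eval_mul, Polynomial.eval_C, Polynomial.eval_X]
      rw [hP2]
      have h3 : (1 : ℝ) / 2 ^ v * (((D.T ω % 2 ^ (J - v) : ℕ) : ℝ) / ((2 ^ (J - v) : ℕ) : ℝ)) =
          ((D.T ω % 2 ^ (J - v) : ℕ) : ℝ) / ((2 ^ (J - v) : ℕ) : ℝ) / 2 ^ v := by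
        field_simp
      rw [h3, hY]
      exact h2
  have h2 := Pb_ex hq.nonneg (fun (m : {m // m ∈ bx n (i + 1)}) ω =>
    ¬ ∀ t ∈ Set.Icc (0 : ℝ) 1,
        |((P m.1 (D.wn J v ω)).comp (Polynomial.C (1 / 2 ^ v) * Polynomial.X)).eval t| ≤
          Real.exp (C₁ * (θ + 1) / η) * S₀) η h1
  rw [Fintype.card_coe] at h2
  refine le_trans (Pb_mono hq.nonneg fun ω _ hω => ?_) h2
  by_contra hcon
  push Not at hcon
  apply hω
  intro m
  by_cases hm : m ∈ bx n (i + 1)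
  · have h3 := hcon ⟨m, hm⟩
    have h4 := hmk (P m (D.wn J v ω)) 0 (1 / 2 ^ v) (Real.exp (C₁ * (θ + 1) / η) * S₀)
      (hP1 m _) (by positivity) (by
        intro t ht
        have h5 := h3 (2 ^ v * t) ⟨mul_nonneg hv0.le ht.1, by
          have := ht.2
          rw [zero_add, le_div_iff₀ hv0] at this
          linarith only [this]⟩
        rw [Polynomial.eval_comp] at h5
        simp only [Polynomial.eval_mul, Polynomial.eval_C, Polynomial.eval_X] at h5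
        have h6 : (1 : ℝ) / 2 ^ v * (2 ^ v * t) = t := by field_simp
        rw [h6] at h5
        exact h5)
      (((D.T ω % 2 ^ (J - v) : ℕ) : ℝ) / ((2 ^ (J - v) : ℕ) : ℝ) / 2 ^ v) ⟨by positivity, by
        rw [zero_add]
        refine div_le_div_of_nonneg_right ?_ hv0.le
        rw [div_le_one (by positivity)]
        have := (Nat.mod_lt (D.T ω) (y := 2 ^ (J - v)) (by positivity)).le
        exact_mod_cast this⟩
    rw [hP3, hY] at h4
    refine h4.trans ?_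
    have h5 : Real.exp (C₁ * (θ + 1) / η) ≤ Real.exp (C * (θ + 1) / η) := by
      refine Real.exp_le_exp.2 (div_le_div_of_nonneg_right ?_ hη.le)
      exact mul_le_mul_of_nonneg_right hC1 (by linarith only [hθ])
    rw [div_div_eq_mul_div, div_one]
    refine mul_le_mul_of_nonneg_right ?_ hv0.le
    rw [← mul_assoc]
    refine mul_le_mul_of_nonneg_right ?_ hS₀.le
    exact mul_le_mul hC2 h5 (Real.exp_pos _).le (by linarith only [hC₁, hC1])
  · have h3 : (dE (D.E (D.ln ω)) (jt (i + 1) (F (D.wn J v ω)) (D.Y J ω))).coeff m = 0 := by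
      by_contra h4
      exact hm (support_bx _ (Pool.BFL.Tra.dE_deg _ _ _ _) (MvPolynomial.mem_support_iff.2 h4))
    rw [h3, abs_zero]
    have : 0 ≤ C := by linarith only [hC₁, hC1]
    positivity

/-- Triangle inequality for the jets of differences. -/
theorem jt_tri {n : ℕ} (i : ℕ) (F G G' : Pl n) (y : Fin n → ℝ) (m : Fin n →₀ ℕ) :
    |(jt i (F - G') y).coeff m| ≤ |(jt i (F - G) y).coeff m| + |(jt i (G - G') y).coeff m| := by
  have h : (jt i (F - G') y).coeff m = (jt i (F - G) y).coeff m + (jt i (G - G') y).coeff m := by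
    rw [Pool.BFL.Tra.jt_sub, Pool.BFL.Tra.jt_sub, Pool.BFL.Tra.jt_sub, MvPolynomial.coeff_sub,
      MvPolynomial.coeff_sub, MvPolynomial.coeff_sub]
    ring
  rw [h]
  exact abs_add_le _ _

theorem jt_symm {n : ℕ} (i : ℕ) (F G : Pl n) (y : Fin n → ℝ) (m : Fin n →₀ ℕ) :
    |(jt i (F - G) y).coeff m| = |(jt i (G - F) y).coeff m| := by
  rw [Pool.BFL.Tra.jt_sub, Pool.BFL.Tra.jt_sub, MvPolynomial.coeff_sub, MvPolynomial.coeff_sub,
    abs_sub_comm]

/-- The jets of the sheets of two levels. -/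
theorem jt_chain {n : ℕ} (i : ℕ) (F : ℕ → Pl n) (y : Fin n → ℝ) (m : Fin n →₀ ℕ) (X : ℝ)
    (U : ℕ) : ∀ d : ℕ, (∀ v, U ≤ v → v < U + d → |(jt i (F (v + 1) - F v) y).coeff m| ≤ X) →
    |(jt i (F (U + d) - F U) y).coeff m| ≤ d * X := by
  intro d
  induction d with
  | zero =>
    intro _
    rw [add_zero, sub_self]
    have h : jt i (0 : Pl n) y = 0 := by
      have := Pool.BFL.Tra.jt_sub i (0 : Pl n) 0 y
      rw [sub_zero] at this
      have h2 : jt i (0 : Pl n) y = jt i (0 : Pl n) y - jt i (0 : Pl n) y := this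
      rw [sub_self] at h2
      exact h2
    rw [h, MvPolynomial.coeff_zero, abs_zero]
    simp
  | succ d ih =>
    intro h
    have h1 := ih fun v hv hv' => h v hv (by omega)
    have h2 := h (U + d) (by omega) (by omega)
    have h3 := jt_tri i (F (U + (d + 1))) (F (U + d)) (F U) y m
    rw [← add_assoc] at h3 ⊢
    push_cast
    linarith only [h1, h2, h3]

/-- Comparison of the scales of two levels. -/
theorem scale_le {g : ℕ → ℕ} {j w₀ z k' U v : ℕ} {C₁ : ℝ} (hj : 1 ≤ j) (hC₁ : 1 ≤ C₁)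
    (h1 : |(g (k' + v) : ℝ) - g k' - j * (v * z)| ≤ C₁ * z)
    (h2 : |(g (k' + U) : ℝ) - g k' - j * (U * z)| ≤ C₁ * z) (hUv : U ≤ v) :
    (2 : ℝ) ^ ((j - 1) * (w₀ + (k' + v) * z)) / 2 ^ g (k' + v) ≤
      Real.exp (2 * C₁ * z) * (2 ^ ((j - 1) * (w₀ + (k' + U) * z)) / 2 ^ g (k' + U)) := by
  obtain ⟨a, ha⟩ : ∃ a, j = a + 1 := ⟨j - 1, by omega⟩
  obtain ⟨d, hd⟩ : ∃ d, v = U + d := ⟨v - U, by omega⟩
  have hz : (0 : ℝ) ≤ z := Nat.cast_nonneg z
  have hl2 : 0 < Real.log 2 := Real.log_pos (by norm_num)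
  have hl3 : Real.log 2 ≤ 1 := by
    have := Real.log_two_lt_d9
    linarith only [hl2, this]
  have e : ∀ m : ℕ, (2 : ℝ) ^ m = Real.exp (m * Real.log 2) := fun m => by
    rw [mul_comm, Real.exp_mul, Real.exp_log (by norm_num), Real.rpow_natCast]
  rw [e, e, e, e, ← Real.exp_sub, ← Real.exp_sub, ← Real.exp_add]
  refine Real.exp_le_exp.2 ?_
  rw [ha, Nat.add_sub_cancel]
  rw [abs_le] at h1 h2
  rw [ha, hd] at h1
  rw [ha] at h2
  rw [hd]
  push_cast at h1 h2 ⊢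
  have h3 : (a : ℝ) * (w₀ + (k' + (U + d)) * z) - g (k' + (U + d)) ≤
      2 * (C₁ * z) + (a * (w₀ + (k' + U) * z) - g (k' + U)) := by
    have h4 : 0 ≤ (d : ℝ) * z := by positivity
    nlinarith only [h1, h2, h4, h1.1, h2.2]
  have h4 : 0 ≤ 2 * (C₁ * z) := by positivity
  have h5 := mul_le_mul_of_nonneg_right h3 hl2.le
  have h6 : 2 * (C₁ * z) * Real.log 2 ≤ 2 * (C₁ * z) * 1 := mul_le_mul_of_nonneg_left hl3 h4
  linarith only [h5, h6]

theorem vst_thm (hJET : JETStmt) (hLJT : LJTStmt) : VSTStmt := by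
  classical
  intro n K j C₁ hn hj hjK hC₁
  obtain ⟨CJ, hCJ, hJ⟩ := hJET n K j C₁ hn hC₁
  obtain ⟨CR, hCR, hR⟩ := rem_line hLJT n K (j - 1)
  refine ⟨CJ + 2 * C₁ + 2, by linarith only [hC₁, hCJ], ?_⟩
  intro B U η hU hUB hη hη1
  obtain ⟨c, hc⟩ : ∃ c : ℝ, c = (bx n (j - 1 + 1)).card := ⟨_, rfl⟩
  have hc0 : 0 ≤ c := by rw [hc]; positivity
  obtain ⟨η₁, hη₁⟩ : ∃ η₁, η₁ = η / (c + 1) := ⟨_, rfl⟩
  have hη₁0 : 0 < η₁ := by rw [hη₁]; positivity
  have hη₁1 : η₁ ≤ 1 := by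
    rw [hη₁, div_le_one (by linarith only [hc])]
    linarith only [hη1, hc]
  have hη₁c : c * η₁ ≤ η := by
    rw [hη₁]
    have h1 : c * (η / (c + 1)) = η * (c / (c + 1)) := by ring
    rw [h1]
    have h2 : c / (c + 1) ≤ 1 := by
      rw [div_le_one (by linarith only [hc])]
      linarith only
    nlinarith only [hη, h2]
  obtain ⟨κJ, hκJ, zJ, hJ⟩ := hJ B (η₁ / 8) (by omega) (by positivity) (by linarith only [hη₁1])
  obtain ⟨zN, hzN⟩ := exists_nat_ge (4 * CR / η₁ + 2 * CR + (B + 2))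
  refine ⟨min κJ (η₁ / (4 * CR)), lt_min hκJ (by positivity), max zJ zN, ?_⟩
  intro J r w₀ z M k k' D q Q Q' Qb Qb' hz hOk hk hM hH hH' hT hT'
  obtain ⟨κ, hκ⟩ : ∃ κ, κ = min κJ (η₁ / (4 * CR)) := ⟨_, rfl⟩
  rw [← hκ] at hOk
  have hκ0 : 0 < κ := by rw [hκ]; exact lt_min hκJ (by positivity)
  have hκ1 : κ ≤ κJ := by rw [hκ]; exact min_le_left _ _
  have hκ2 : κ ≤ η₁ / (4 * CR) := by rw [hκ]; exact min_le_right _ _
  have hzJ : zJ ≤ z := (le_max_left _ _).trans hz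
  have hzN' : 4 * CR / η₁ + 2 * CR + (B + 2) ≤ z :=
    hzN.trans (by exact_mod_cast (le_max_right _ _).trans hz)
  have hq := hOk.isLaw
  have hz0 : (0 : ℝ) ≤ z := Nat.cast_nonneg z
  have hkB : k + B ≤ M := by omega
  have hkk : k ≤ k' := by omega
  -- the jets at typical samples
  have hJk := hJ J r w₀ z M k j D q Q Qb hzJ (ok_mono hOk hκ1) hkB le_rfl
    (by exact_mod_cast hjK) hH hT
  have hJk' := hJ J r w₀ z M k' j D q Q' Qb' hzJ (ok_mono hOk hκ1) hM le_rfl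
    (by exact_mod_cast hjK) hH' hT'
  obtain ⟨v, hv⟩ : ∃ v, v = w₀ + k' * z := ⟨_, rfl⟩
  obtain ⟨S, hS⟩ : ∃ S : ℝ, S = (B + 2) * (Real.exp (CJ * z) * (Real.exp (2 * C₁ * z) *
    (2 ^ ((j - 1) * (w₀ + (k + B) * z)) / 2 ^ D.g (k + B)))) := ⟨_, rfl⟩
  have hS0 : 0 < S := by rw [hS]; positivity
  have hvJ : v + z ≤ J := by
    have h1 := hOk.top
    have h2 := hOk.r_le
    rw [hv]
    have h3 : k' * z ≤ M * z := Nat.mul_le_mul_right z (by omega)
    have h4 : (M + 1) * z = M * z + z := by ring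
    omega
  have hvJ' : v ≤ J := by omega
  obtain ⟨F, hF⟩ : ∃ F : D.Λ × ℕ → Pl n,
      F = fun x => Q' x - Q (x.1, x.2 / 2 ^ ((k' - k) * z)) := ⟨_, rfl⟩
  have hFw : ∀ ω, F (D.wn J v ω) =
      Q' (D.wn J (w₀ + k' * z) ω) - Q (D.wn J (w₀ + k * z) ω) := by
    intro ω
    rw [hF, hv]
    show Q' (D.wn J (w₀ + k' * z) ω) - Q (D.ln ω, D.T ω / 2 ^ (J - (w₀ + k' * z)) /
      2 ^ ((k' - k) * z)) = Q' (D.wn J (w₀ + k' * z) ω) -
        Q (D.ln ω, D.T ω / 2 ^ (J - (w₀ + k * z)))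
    have h1 : J - (w₀ + k * z) = J - (w₀ + k' * z) + (k' - k) * z := by
      have h2 : k * z ≤ k' * z := Nat.mul_le_mul_right z hkk
      rw [Nat.sub_mul]
      omega
    rw [Nat.div_div_eq_div_mul, ← pow_add, ← h1]
  obtain ⟨Gd, hGd⟩ : ∃ Gd : D.Ω → Prop, Gd = fun ω => D.JGd K J w₀ z B k j CJ Q ω ∧
    D.JGd K J w₀ z B k' j CJ Q' ω := ⟨_, rfl⟩
  have hPG : Pb q (fun ω => ¬ Gd ω) ≤ η₁ / 4 := by
    have h1 : Pb q (fun ω => ¬ Gd ω) ≤ Pb q (fun ω => ¬ D.JGd K J w₀ z B k j CJ Q ω ∨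
        ¬ D.JGd K J w₀ z B k' j CJ Q' ω) := by
      refine Pb_mono hq.nonneg fun ω _ h => ?_
      rw [hGd] at h
      exact not_and_or.1 h
    refine h1.trans ((Pb_or_le hq.nonneg hJk hJk').trans (le_of_eq ?_))
    ring
  have hexpm : CR * (κ * z + 1) / η₁ ≤ z / 2 := by
    have h1 : CR * (κ * z) / η₁ ≤ z / 4 := by
      have h2 : κ * (4 * CR) ≤ η₁ := by
        rw [le_div_iff₀ (by positivity)] at hκ2
        exact hκ2
      rw [div_le_iff₀ hη₁0]
      nlinarith only [h2]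
    have h2 : CR / η₁ ≤ z / 4 := by
      have h3 : 4 * CR / η₁ = 4 * (CR / η₁) := by ring
      have h4 : 0 ≤ CR := by linarith only [hCR]
      have h5 : (0 : ℝ) ≤ B := Nat.cast_nonneg B
      linarith only [hCR, hzN', h3]
    have h3 : CR * (κ * z + 1) / η₁ = CR * (κ * z) / η₁ + CR / η₁ := by ring
    rw [h3]
    linarith only [h1, h2]
  have hlog : (0.5 : ℝ) ≤ Real.log 2 := by
    have := Real.log_two_gt_d9
    linarith only [this]
  have hmain := hR D J v q F Gd S (κ * z) η₁ hq hvJ' hOk.T_lt (fun x => by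
      rw [hF]
      exact (MvPolynomial.totalDegree_sub _ _).trans (max_le (hT'.deg _) (hT.deg _)))
    (by positivity) hη₁0 hη₁1 hOk.time hPG hS0 (by
      refine hexpm.trans ?_
      have h1 : (z : ℝ) ≤ (J : ℝ) - v := by
        have : ((v + z : ℕ) : ℝ) ≤ J := by exact_mod_cast hvJ
        push_cast at this
        linarith only [this]
      nlinarith only [h1, hlog]) (by
      intro ω hω m
      rw [hGd] at hω
      obtain ⟨h1, h2⟩ := hω
      rw [hFw]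
      have hi : j - 1 ≤ K := by omega
      have e0 : k' + U = k + B := hk
      have hX : ∀ u, U ≤ u → u ≤ B →
          Real.exp (CJ * z) * 2 ^ ((j - 1) * (w₀ + (k' + u) * z)) / 2 ^ D.g (k' + u) ≤
          Real.exp (CJ * z) * (Real.exp (2 * C₁ * z) *
            (2 ^ ((j - 1) * (w₀ + (k + B) * z)) / 2 ^ D.g (k + B))) := by
        intro u hu hu'
        rw [mul_div_assoc]
        refine mul_le_mul_of_nonneg_left ?_ (Real.exp_pos _).le
        rw [← e0]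
        exact scale_le hj hC₁ (hH' u hu') (hH' U hUB.le) hu
      have ha := (h2.b2 (j - 1) hi m).trans (hX B hUB.le le_rfl)
      have hb := h1.b2 (j - 1) hi m
      rw [← e0] at hb
      have hb' := hb.trans (hX U le_rfl hUB.le)
      have hcc := jt_chain (j - 1) (fun u => D.F (k' + u) (D.c (k' + u) ω)) (D.Y J ω) m
        (Real.exp (CJ * z) * (Real.exp (2 * C₁ * z) *
            (2 ^ ((j - 1) * (w₀ + (k + B) * z)) / 2 ^ D.g (k + B)))) U (B - U) (by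
          intro u hu hu'
          exact (h2.b0 u (by omega) (j - 1) hi m).trans (hX u hu (by omega)))
      have e1 : U + (B - U) = B := by omega
      simp only [e1] at hcc
      have t1 := jt_tri (j - 1) (Q' (D.wn J (w₀ + k' * z) ω))
        (D.F (k' + B) (D.c (k' + B) ω)) (Q (D.wn J (w₀ + k * z) ω)) (D.Y J ω) m
      have t2 := jt_tri (j - 1) (D.F (k' + B) (D.c (k' + B) ω))
        (D.F (k' + U) (D.c (k' + U) ω)) (Q (D.wn J (w₀ + k * z) ω)) (D.Y J ω) m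
      have t3 := jt_symm (j - 1) (D.F (k' + U) (D.c (k' + U) ω))
        (Q (D.wn J (w₀ + k * z) ω)) (D.Y J ω) m
      rw [hS]
      obtain ⟨X, hX'⟩ : ∃ X : ℝ, X = Real.exp (CJ * z) * (Real.exp (2 * C₁ * z) *
            (2 ^ ((j - 1) * (w₀ + (k + B) * z)) / 2 ^ D.g (k + B))) := ⟨_, rfl⟩
      have hX0 : 0 ≤ X := by rw [hX']; positivity
      rw [← hX'] at ha hb' hcc ⊢
      have h5 : ((B - U : ℕ) : ℝ) ≤ B := by
        exact_mod_cast Nat.sub_le B U
      have h6 : ((B - U : ℕ) : ℝ) * X ≤ B * X := mul_le_mul_of_nonneg_right h5 hX0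
      linarith only [t1, t2, t3, hcc, hb', ha, h6])
  have hfin : c * η₁ ≤ η := hη₁c
  rw [← hc] at hmain
  refine le_trans (Pb_mono hq.nonneg fun ω _ hω => ?_) (hmain.trans hfin)
  intro hcb
  apply hω
  intro m
  have h1 := hcb m
  rw [hFw, Nat.sub_add_cancel hj] at h1
  refine h1.trans ?_
  rw [hS, hv]
  have h2 : (B : ℝ) + 2 ≤ Real.exp z := by
    have h3 := Real.add_one_le_exp (z : ℝ)
    have h4 : 0 ≤ 4 * CR / η₁ := by positivity
    have h5 : 0 ≤ CR := by linarith only [hCR]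
    linarith only [hCR, hzN', h3, h4]
  have h3 : CR ≤ Real.exp (z / 2) := by
    have h3 := Real.add_one_le_exp ((z : ℝ) / 2)
    have h4 : 0 ≤ 4 * CR / η₁ := by positivity
    have h5 : (0 : ℝ) ≤ B := Nat.cast_nonneg B
    linarith only [hzN', h3, h4]
  have h4 : Real.exp (CR * (κ * z + 1) / η₁) ≤ Real.exp (z / 2) := Real.exp_le_exp.2 hexpm
  have h5 : CR * Real.exp (CR * (κ * z + 1) / η₁) ≤ Real.exp z := by
    have h6 : Real.exp (z : ℝ) = Real.exp (z / 2) * Real.exp (z / 2) := by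
      rw [← Real.exp_add]
      congr 1
      ring
    rw [h6]
    exact mul_le_mul h3 h4 (Real.exp_pos _).le (Real.exp_pos _).le
  have h6 : Real.exp ((CJ + 2 * C₁ + 2) * z) =
      Real.exp z * (Real.exp z * (Real.exp (CJ * z) * Real.exp (2 * C₁ * z))) := by
    rw [← Real.exp_add, ← Real.exp_add, ← Real.exp_add]
    congr 1
    ring
  rw [h6, pow_add (2 : ℝ) ((j - 1) * (w₀ + (k + B) * z)) (w₀ + k' * z)]
  have h7 : CR * Real.exp (CR * (κ * z + 1) / η₁) * ((B + 2) * (Real.exp (CJ * z) *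
      (Real.exp (2 * C₁ * z) * (2 ^ ((j - 1) * (w₀ + (k + B) * z)) / 2 ^ D.g (k + B))))) *
      2 ^ (w₀ + k' * z) ≤ Real.exp z * (Real.exp z * (Real.exp (CJ * z) *
      (Real.exp (2 * C₁ * z) * (2 ^ ((j - 1) * (w₀ + (k + B) * z)) / 2 ^ D.g (k + B))))) *
      2 ^ (w₀ + k' * z) := by
    refine mul_le_mul_of_nonneg_right ?_ (by positivity)
    refine mul_le_mul h5 ?_ (by positivity) (Real.exp_pos _).le
    exact mul_le_mul_of_nonneg_right h2 (by positivity)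
  refine h7.trans (le_of_eq ?_)
  ring

end Pool.Agent.H40.BFL
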