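import Pool.Agent.H19.BFL.Stmts
import Pool.Agent.H36.KBX.Coef

/-!
# Row UNQ of the board kbfl

A homogeneous polynomial whose derivatives in `n` spanning directions are small is small.
-/

set_option autoImplicit false

namespace Pool.Agent.H40.BFL

open Finset Real
open Pool.BFL

theorem adj_le {n : ℕ} (A : Matrix (Fin n) (Fin n) ℝ) {c : ℝ} (hc : 1 ≤ c)
    (h : ∀ i j, |A i j| ≤ c) (i j : Fin n) : |A.adjugate i j| ≤ n.factorial * c ^ n := by
  rw [Matrix.adjugate_apply]
  have h1 : ∀ a b, |(A.updateRow j (Pi.single i 1)) a b| ≤ c := by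
    intro a b
    by_cases ha : a = j
    · subst ha
      rw [Matrix.updateRow_self]
      by_cases hb : b = i
      · subst hb
        rw [Pi.single_eq_same, abs_one]
        exact hc
      · rw [Pi.single_eq_of_ne hb, abs_zero]
        linarith
    · rw [Matrix.updateRow_ne ha]
      exact h a b
  have h2 := Matrix.det_le (abv := IsAbsoluteValue.toAbsoluteValue (abs : ℝ → ℝ)) h1
  simpa [nsmul_eq_mul] using h2

theorem unq_thm : UNQStmt := by
  intro n j C₀ hn hj hC₀
  obtain ⟨C1, hC1, hcoef⟩ := Pool.Agent.H36.KBX.coef_bound n j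
  set F : ℝ := n.factorial * C₀ ^ n with hF
  have hF0 : 0 ≤ F := by positivity
  refine ⟨1 + C1 * (n * (n * F)), by
    have : 0 ≤ C1 * (n * (n * F)) := by positivity
    linarith, ?_⟩
  intro E φ κ ε hE hφ hκ hκ1 hε hdet hsmall
  set G : Matrix (Fin n) (Fin n) ℝ := Matrix.of fun i k => E k i with hG
  have hκε : 0 ≤ ε / κ := div_nonneg hε hκ.le
  have hg : ∀ (v : Fin n → ℝ), (∀ i, |v i| ≤ 1) → ∀ i,
      |MvPolynomial.eval v (MvPolynomial.pderiv i φ)| ≤ n * F * (ε / κ) := by
    intro v hv i
    set g : Fin n → ℝ := fun i => MvPolynomial.eval v (MvPolynomial.pderiv i φ) with hgdef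
    have e1 : G.transpose.mulVec g = fun a => ∑ i, E a i * g i := by
      funext a
      rw [Matrix.mulVec, dotProduct]
      rfl
    have e2 : G.transpose.adjugate.mulVec (fun a => ∑ i, E a i * g i) = G.det • g := by
      rw [← e1, Matrix.mulVec_mulVec, Matrix.adjugate_mul, Matrix.det_transpose,
        Matrix.smul_mulVec, Matrix.one_mulVec]
    have e3 : ∑ a, G.transpose.adjugate i a * ∑ i, E a i * g i = G.det * g i := congrFun e2 i
    have h1 : |G.det * g i| ≤ n * F * ε := by
      rw [← e3]
      refine (Finset.abs_sum_le_sum_abs _ _).trans ?_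
      have h2 : ∀ a ∈ (Finset.univ : Finset (Fin n)),
          |G.transpose.adjugate i a * ∑ i, E a i * g i| ≤ F * ε := by
        intro a _
        rw [abs_mul]
        refine mul_le_mul ?_ (hsmall a v hv) (abs_nonneg _) hF0
        exact adj_le _ hC₀ (fun b c => hE b c) i a
      refine (Finset.sum_le_sum h2).trans ?_
      rw [Finset.sum_const, Finset.card_univ, Fintype.card_fin, nsmul_eq_mul]
      exact le_of_eq (by ring)
    rw [abs_mul] at h1
    have h3 : κ * |g i| ≤ n * F * ε :=
      (mul_le_mul_of_nonneg_right hdet (abs_nonneg _)).trans h1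
    change |g i| ≤ _
    rw [← mul_div_assoc, le_div_iff₀ hκ]
    linarith
  have hφ1 : ∀ v : Fin n → ℝ, (∀ i, |v i| ≤ 1) →
      |MvPolynomial.eval v φ| ≤ n * (n * F) * (ε / κ) := by
    intro v hv
    have h1 := congrArg (MvPolynomial.eval v) hφ.sum_X_mul_pderiv
    rw [map_sum] at h1
    have h2 : MvPolynomial.eval v (j • φ) = j * MvPolynomial.eval v φ := by
      rw [nsmul_eq_mul, map_mul, map_natCast]
    rw [h2] at h1
    have h3 : |(j : ℝ) * MvPolynomial.eval v φ| ≤ n * (n * F * (ε / κ)) := by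
      rw [← h1]
      refine (Finset.abs_sum_le_sum_abs _ _).trans ?_
      have h4 : ∀ i ∈ (Finset.univ : Finset (Fin n)),
          |MvPolynomial.eval v (MvPolynomial.X i * MvPolynomial.pderiv i φ)| ≤
            n * F * (ε / κ) := by
        intro i _
        rw [map_mul, MvPolynomial.eval_X, abs_mul]
        calc _ ≤ 1 * (n * F * (ε / κ)) :=
              mul_le_mul (hv i) (hg v hv i) (abs_nonneg _) zero_le_one
          _ = _ := one_mul _
      refine (Finset.sum_le_sum h4).trans ?_
      rw [Finset.sum_const, Finset.card_univ, Fintype.card_fin, nsmul_eq_mul]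
    have hj' : (1 : ℝ) ≤ j := by exact_mod_cast hj
    rw [abs_mul, abs_of_nonneg (by positivity : (0 : ℝ) ≤ j)] at h3
    have h5 : |MvPolynomial.eval v φ| ≤ j * |MvPolynomial.eval v φ| :=
      le_mul_of_one_le_left (abs_nonneg _) hj'
    calc |MvPolynomial.eval v φ| ≤ n * (n * F * (ε / κ)) := h5.trans h3
      _ = _ := by ring
  intro k
  refine (hcoef φ _ hφ.totalDegree_le hφ1 k).trans ?_
  have h6 : C1 * (n * (n * F) * (ε / κ)) = C1 * (n * (n * F)) * (ε / κ) := by ring
  rw [h6, mul_div_assoc]
  exact mul_le_mul_of_nonneg_right (by linarith) hκε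

end Pool.Agent.H40.BFL
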